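import Pool.Agent.PRT.StmtsB

/-!
# PRT (MP_b2962a_an), row KGR: growth of the derivatives of the iterates
-/

set_option autoImplicit false
set_option maxSynthPendingDepth 3

namespace Pool.Agent.PRT.H66

open Set MeasureTheory
open scoped ContDiff

section

variable (X R : Type) [NormedAddCommGroup X] [NormedSpace ℝ X] [NormedRing R] [NormedAlgebra ℝ R]

/-- multiplication on the left in the values -/
noncomputable def B1 : R →L[ℝ] (X →L[ℝ] R) →L[ℝ] (X →L[ℝ] R) :=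
  (ContinuousLinearMap.compL ℝ X R R).comp (ContinuousLinearMap.mul ℝ R)

/-- multiplication on the right in the values -/
noncomputable def B2 : R →L[ℝ] (X →L[ℝ] R) →L[ℝ] (X →L[ℝ] R) :=
  (ContinuousLinearMap.compL ℝ X R R).comp (ContinuousLinearMap.mul ℝ R).flip

theorem norm_B1 : ‖B1 X R‖ ≤ 1 := by
  refine (ContinuousLinearMap.opNorm_comp_le _ _).trans ?_
  exact mul_le_one₀ (ContinuousLinearMap.norm_compL_le _ _ _ _) (norm_nonneg _)
    (ContinuousLinearMap.opNorm_mul_le _ _)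

theorem norm_B2 : ‖B2 X R‖ ≤ 1 := by
  refine (ContinuousLinearMap.opNorm_comp_le _ _).trans ?_
  rw [ContinuousLinearMap.opNorm_flip]
  exact mul_le_one₀ (ContinuousLinearMap.norm_compL_le _ _ _ _) (norm_nonneg _)
    (ContinuousLinearMap.opNorm_mul_le _ _)

variable {X R}

theorem B1_apply (a : R) (T : X →L[ℝ] R) (ξ : X) : B1 X R a T ξ = a * T ξ := rfl

theorem B2_apply (a : R) (T : X →L[ℝ] R) (ξ : X) : B2 X R a T ξ = T ξ * a := rfl

theorem sm3 {a b : E → R} {T : E → X →L[ℝ] R} (ha : ContDiff ℝ ∞ a) (hb : ContDiff ℝ ∞ b)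
    (hT : ContDiff ℝ ∞ T) : ContDiff ℝ ∞ (fun z => B1 X R (a z) (B2 X R (b z) (T z))) :=
  ((B1 X R).contDiff.comp ha).clm_apply (((B2 X R).contDiff.comp hb).clm_apply hT)

theorem bd3 {a b : E → R} {T : E → X →L[ℝ] R} (sa : ContDiff ℝ ∞ a) (sb : ContDiff ℝ ∞ b)
    (sT : ContDiff ℝ ∞ T) {K : ℕ} {C1 C2 C3 : ℝ} (ha : Bd K C1 a) (hb : Bd K C2 b)
    (hT : Bd K C3 T) : Bd K (2 ^ K * C1 * (2 ^ K * C2 * C3))
      (fun z => B1 X R (a z) (B2 X R (b z) (T z))) := by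
  have b3 := Bd.bil (B2 X R) (norm_B2 X R) hb hT sb sT
  exact Bd.bil (B1 X R) (norm_B1 X R) ha b3 sa (((B2 X R).contDiff.comp sb).clm_apply sT)

end

section

variable {W : Type} [NormedAddCommGroup W] [NormedSpace ℝ W]

theorem smT {q : E → E →L[ℝ] W} {p : E → E →L[ℝ] E} (sq : ContDiff ℝ ∞ q)
    (sp : ContDiff ℝ ∞ p) : ContDiff ℝ ∞ (fun z => (q z).comp (p z)) := sq.clm_comp sp

theorem bdT {q : E → E →L[ℝ] W} {p : E → E →L[ℝ] E} (sq : ContDiff ℝ ∞ q)
    (sp : ContDiff ℝ ∞ p) {K : ℕ} {C1 C2 : ℝ} (hq : Bd K C1 q) (hp : Bd K C2 p) :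
    Bd K (2 ^ K * C1 * C2) (fun z => (q z).comp (p z)) :=
  Bd.bil (ContinuousLinearMap.compL ℝ E E W) (ContinuousLinearMap.norm_compL_le ℝ E E W) hq hp
    sq sp

end

/-- the iterates are smooth -/
theorem smi {F : E → E} (hF : ContDiff ℝ ∞ F) : ∀ m : ℕ, ContDiff ℝ ∞ (F^[m])
  | 0 => contDiff_id
  | m + 1 => by
    rw [Function.iterate_succ']
    exact hF.comp (smi hF m)

theorem smP {F : E → E} (hF : ContDiff ℝ ∞ F) (m : ℕ) : ContDiff ℝ ∞ (fderiv ℝ (F^[m])) :=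
  (smi hF m).fderiv_right (by simp)

theorem smQ {F : E → E} (hF : ContDiff ℝ ∞ F) : ContDiff ℝ ∞ (fderiv ℝ (fderiv ℝ F)) :=
  (hF.fderiv_right (m := ∞) (by simp)).fderiv_right (by simp)

/-- the derivative of an iterate -/
theorem it_fderiv {F : E → E} (hF : ContDiff ℝ ∞ F) (m : ℕ) (w : E) :
    fderiv ℝ (F^[m + 1]) w = (fderiv ℝ F (F^[m] w)).comp (fderiv ℝ (F^[m]) w) := by
  rw [Function.iterate_succ']
  exact fderiv_comp w (hF.differentiable (by simp)).differentiableAt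
    ((smi hF m).differentiable (by simp)).differentiableAt

theorem it_zero (F : E → E) : fderiv ℝ (F^[0]) = fun _ => ContinuousLinearMap.id ℝ E := by
  funext z
  rw [Function.iterate_zero]
  exact fderiv_id

/-- the summands -/
noncomputable def S (F : E → E) (m i : ℕ) (z : E) : E →L[ℝ] (E →L[ℝ] E) :=
  B1 E (E →L[ℝ] E) (fderiv ℝ (F^[m]) (F^[i + 1] z)) (B2 E (E →L[ℝ] E) (fderiv ℝ (F^[i]) z)
    ((fderiv ℝ (fderiv ℝ F) (F^[i] z)).comp (fderiv ℝ (F^[i]) z)))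

theorem smS {F : E → E} (hF : ContDiff ℝ ∞ F) (m i : ℕ) : ContDiff ℝ ∞ (S F m i) :=
  sm3 ((smP hF m).comp (smi hF (i + 1))) (smP hF i) (smT ((smQ hF).comp (smi hF i)) (smP hF i))

/-- the second derivative of the iterates -/
theorem hasf {F : E → E} (hF : ContDiff ℝ ∞ F) : ∀ (j : ℕ) (z : E),
    HasFDerivAt (fderiv ℝ (F^[j])) (∑ i ∈ Finset.range j, S F (j - 1 - i) i z) z := by
  intro j
  induction j with
  | zero =>
    intro z
    rw [it_zero, Finset.range_zero, Finset.sum_empty]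
    exact hasFDerivAt_const _ _
  | succ j ih =>
    intro z
    have e : fderiv ℝ (F^[j + 1]) =
        fun w => (fderiv ℝ F (F^[j] w)).comp (fderiv ℝ (F^[j]) w) := funext (it_fderiv hF j)
    rw [e]
    have s1 : ContDiff ℝ ∞ (fderiv ℝ F) := hF.fderiv_right (by simp)
    have h1 : HasFDerivAt (fun w => fderiv ℝ F (F^[j] w))
        ((fderiv ℝ (fderiv ℝ F) (F^[j] z)).comp (fderiv ℝ (F^[j]) z)) z :=
      HasFDerivAt.comp z (s1.differentiable (by simp)).differentiableAt.hasFDerivAt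
        ((smi hF j).differentiable (by simp)).differentiableAt.hasFDerivAt
    refine (h1.clm_comp (ih z)).congr_fderiv ?_
    rw [Finset.sum_range_succ]
    refine ContinuousLinearMap.ext fun ξ => ?_
    rw [add_apply, add_apply]
    refine congrArg₂ (· + ·) ?_ ?_
    · rw [ContinuousLinearMap.comp_apply, sum_apply, sum_apply, map_sum]
      refine Finset.sum_congr rfl fun i hi => ?_
      have hi' : i < j := Finset.mem_range.1 hi
      have e1 : j + 1 - 1 - i = j - 1 - i + 1 := by omega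
      have e2 : F^[j - 1 - i] (F^[i + 1] z) = F^[j] z := by
        rw [← Function.iterate_add_apply]
        congr 1
        omega
      unfold S
      rw [e1, it_fderiv hF, e2, B1_apply, B1_apply]
      rfl
    · unfold S
      have e1 : j + 1 - 1 - j = 0 := by omega
      rw [e1, it_zero, B1_apply]
      show _ = (ContinuousLinearMap.id ℝ E).comp _
      rw [ContinuousLinearMap.id_comp, B2_apply]
      rfl

/-- the bound of a summand -/
theorem bd_S {F : E → E} (hF : ContDiff ℝ ∞ F) {K n : ℕ} {D δ : ℝ} (hD : 1 ≤ D)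
    (hP : ∀ j ≤ n, Bd K D (fderiv ℝ (F^[j])))
    (hQ : Bd K δ (fderiv ℝ (fderiv ℝ F))) {m i : ℕ} (hm : m ≤ n) (hi : i + 1 ≤ n) :
    Bd K ((2 ^ (3 * K) * (Nat.factorial K : ℝ) ^ 2) * δ * D ^ (2 * K + 3)) (S F m i) := by
  have hB : ∀ j ≤ n, Bm K D (F^[j]) := fun j hj =>
    (bm_succ.2 (hP j hj)).mono (Nat.le_succ _) le_rfl
  have b1 : Bd K ((Nat.factorial K : ℝ) * δ * D ^ K)
      (fun z => fderiv ℝ (fderiv ℝ F) (F^[i] z)) :=
    hQ.comp (hB i (by omega)) hD (smQ hF) (smi hF i)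
  have s1 : ContDiff ℝ ∞ (fun z => fderiv ℝ (fderiv ℝ F) (F^[i] z)) := (smQ hF).comp (smi hF i)
  have b2 := bdT s1 (smP hF i) b1 (hP i (by omega))
  have b4 : Bd K ((Nat.factorial K : ℝ) * D * D ^ K)
      (fun z => fderiv ℝ (F^[m]) (F^[i + 1] z)) :=
    (hP m hm).comp (hB (i + 1) hi) hD (smP hF m) (smi hF (i + 1))
  have s4 : ContDiff ℝ ∞ (fun z => fderiv ℝ (F^[m]) (F^[i + 1] z)) :=
    (smP hF m).comp (smi hF (i + 1))
  have b5 := bd3 s4 (smP hF i) (smT s1 (smP hF i)) b4 (hP i (by omega)) b2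
  refine Bd.mono b5 le_rfl (le_of_eq ?_)
  have e1 : (2 : ℝ) ^ (3 * K) = 2 ^ K * 2 ^ K * 2 ^ K := by
    rw [← pow_add, ← pow_add]
    congr 1
    omega
  have e2 : D ^ (2 * K + 3) = D ^ K * D ^ K * (D * D * D) := by
    rw [← pow_add, show D * D * D = D ^ 3 by ring, ← pow_add]
    congr 1
    omega
  rw [e1, e2]
  ring

/-- the claim of the induction -/
theorem claim (K : ℕ) : ∃ c : ℕ, 1 ≤ c ∧ ∀ F : E → E, ContDiff ℝ ∞ F → ∀ (n : ℕ) (Λ δ : ℝ),
    1 ≤ Λ → 0 ≤ δ → (∀ j ≤ n, ∀ z, ‖fderiv ℝ (F^[j]) z‖ ≤ Λ) →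
      (∀ i, 2 ≤ i → i ≤ K + 1 → ∀ z, ‖iteratedFDeriv ℝ i F z‖ ≤ δ) →
        ∀ j ≤ n, Bd K (c * Λ ^ c * (1 + n * δ) ^ c) (fderiv ℝ (F^[j])) := by
  induction K with
  | zero =>
    refine ⟨1, le_rfl, fun F hF n Λ δ hΛ hδ h1 h2 j hj i hi z => ?_⟩
    obtain rfl : i = 0 := by omega
    rw [norm_iteratedFDeriv_zero]
    refine (h1 j hj z).trans ?_
    have h3 : (0 : ℝ) ≤ n * δ := by positivity
    rw [Nat.cast_one, one_mul, pow_one, pow_one]
    nlinarith
  | succ K ih =>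
    obtain ⟨c, hc, ih⟩ := ih
    obtain ⟨a, ha⟩ : ∃ a : ℕ, a = 2 ^ (3 * K) * Nat.factorial K ^ 2 := ⟨_, rfl⟩
    have ha1 : 1 ≤ a := by
      rw [ha]
      exact Nat.one_le_iff_ne_zero.2 (mul_ne_zero (by positivity)
        (pow_ne_zero _ (Nat.factorial_ne_zero K)))
    refine ⟨a * c ^ (2 * K + 3) + c * (2 * K + 3) + 1, by omega,
      fun F hF n Λ δ hΛ hδ h1 h2 j hj => ?_⟩
    obtain ⟨c', hc'⟩ : ∃ c' : ℕ, c' = a * c ^ (2 * K + 3) + c * (2 * K + 3) + 1 := ⟨_, rfl⟩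
    rw [← hc']
    have hP := ih F hF n Λ δ hΛ hδ h1 (fun i hi hi' => h2 i hi (by omega))
    obtain ⟨M, hM⟩ : ∃ M : ℝ, M = 1 + n * δ := ⟨_, rfl⟩
    rw [← hM] at hP ⊢
    have hnδ : (0 : ℝ) ≤ n * δ := by positivity
    have hM1 : 1 ≤ M := by rw [hM]; linarith
    have hc1 : (1 : ℝ) ≤ c := by exact_mod_cast hc
    obtain ⟨D, hD⟩ : ∃ D : ℝ, D = c * Λ ^ c * M ^ c := ⟨_, rfl⟩
    rw [← hD] at hP
    have hD1 : 1 ≤ D := by
      rw [hD]
      exact one_le_mul_of_one_le_of_one_le (one_le_mul_of_one_le_of_one_le hc1 (one_le_pow₀ hΛ))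
        (one_le_pow₀ hM1)
    have hQ : Bd K δ (fderiv ℝ (fderiv ℝ F)) := by
      intro i hi z
      rw [norm_iteratedFDeriv_fderiv, norm_iteratedFDeriv_fderiv]
      exact h2 (i + 1 + 1) (by omega) (by omega) z
    -- the final bound
    have hfin : ∀ x : ℝ, x ≤ a * (M * D ^ (2 * K + 3)) → x ≤ c' * Λ ^ c' * M ^ c' := by
      intro x hx
      refine hx.trans ?_
      have e1 : (a : ℝ) * (M * D ^ (2 * K + 3)) =
          ((a * c ^ (2 * K + 3) : ℕ) : ℝ) * Λ ^ (c * (2 * K + 3)) * M ^ (c * (2 * K + 3) + 1) := by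
        rw [hD, mul_pow, mul_pow, pow_mul, pow_succ (M) (c * (2 * K + 3)), pow_mul M]
        push_cast
        ring
      rw [e1]
      have g1 : ((a * c ^ (2 * K + 3) : ℕ) : ℝ) ≤ c' := by
        rw [hc']
        exact_mod_cast (by omega : a * c ^ (2 * K + 3) ≤
          a * c ^ (2 * K + 3) + c * (2 * K + 3) + 1)
      have g2 : Λ ^ (c * (2 * K + 3)) ≤ Λ ^ c' := pow_le_pow_right₀ hΛ (by omega)
      have g3 : M ^ (c * (2 * K + 3) + 1) ≤ M ^ c' := pow_le_pow_right₀ hM1 (by omega)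
      gcongr
    have ha' : (1 : ℝ) ≤ a := by exact_mod_cast ha1
    rw [bd_succ]
    refine ⟨fun z => ?_, ?_⟩
    · refine (h1 j hj z).trans (hfin Λ ?_)
      have g1 : Λ ≤ D := by
        rw [hD]
        have g2 : Λ ≤ Λ ^ c := le_self_pow₀ hΛ (by omega)
        have g3 : (1 : ℝ) ≤ M ^ c := one_le_pow₀ hM1
        have g4 : (0 : ℝ) ≤ Λ ^ c := by positivity
        calc Λ ≤ Λ ^ c := g2
          _ ≤ c * Λ ^ c := le_mul_of_one_le_left g4 hc1
          _ ≤ c * Λ ^ c * M ^ c := le_mul_of_one_le_right (by positivity) g3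
      have g2 : D ≤ D ^ (2 * K + 3) := le_self_pow₀ hD1 (by omega)
      have g3 : (0 : ℝ) ≤ D ^ (2 * K + 3) := by positivity
      calc Λ ≤ D ^ (2 * K + 3) := g1.trans g2
        _ ≤ M * D ^ (2 * K + 3) := le_mul_of_one_le_left g3 hM1
        _ ≤ a * (M * D ^ (2 * K + 3)) := le_mul_of_one_le_left (by positivity) ha'
    · have e : fderiv ℝ (fderiv ℝ (F^[j])) =
          fun z => ∑ i ∈ Finset.range j, S F (j - 1 - i) i z := by
        funext z
        exact (hasf hF j z).fderiv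
      rw [e]
      have hsum := Bd.sum (Finset.range j)
        (C := fun _ => (2 ^ (3 * K) * (Nat.factorial K : ℝ) ^ 2) * δ * D ^ (2 * K + 3))
        (f := fun i => S F (j - 1 - i) i)
        (fun i hi => bd_S hF hD1 hP hQ (by omega) (by
          have := Finset.mem_range.1 hi
          omega)) (fun i _ => smS hF _ _)
      refine hsum.mono le_rfl (hfin _ ?_)
      rw [Finset.sum_const, Finset.card_range, nsmul_eq_mul]
      have g1 : ((2 : ℝ) ^ (3 * K) * (Nat.factorial K : ℝ) ^ 2) = a := by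
        rw [ha]
        push_cast
        ring
      rw [g1]
      have g2 : (j : ℝ) ≤ n := by exact_mod_cast hj
      have g3 : (j : ℝ) * δ ≤ M := by
        have := mul_le_mul_of_nonneg_right g2 hδ
        rw [hM]
        linarith
      have g4 : (0 : ℝ) ≤ a * D ^ (2 * K + 3) := by positivity
      calc (j : ℝ) * (a * δ * D ^ (2 * K + 3)) = (j * δ) * (a * D ^ (2 * K + 3)) := by ring
        _ ≤ M * (a * D ^ (2 * K + 3)) := mul_le_mul_of_nonneg_right g3 g4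
        _ = a * (M * D ^ (2 * K + 3)) := by ring

/-- **row KGR** -/
theorem kgr : KgrStmt := by
  intro k
  rcases Nat.eq_zero_or_pos k with rfl | hk
  · refine ⟨0, fun F _ n Λ δ _ _ _ _ j _ i h1 h2 z => ?_⟩
    omega
  · obtain ⟨K, rfl⟩ : ∃ K, k = K + 1 := ⟨k - 1, by omega⟩
    obtain ⟨c, -, h⟩ := claim K
    refine ⟨c, fun F hF n Λ δ hΛ hδ h1 h2 j hj => ?_⟩
    rw [bm_succ]
    exact h F hF n Λ δ hΛ hδ h1 h2 j hj

end Pool.Agent.PRT.H66
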